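import Pool.Agent.Y17.N.Defs
import Pool.Agent.Z927.Abs

/-!
`S_GENbQ`: the sum over the genus characters for a fixed `b`, two different primes `3` and `q`.
-/

set_option autoImplicit false

namespace Pool.Agent.Z125.N

open Finset Pool.Agent.Y17.N
open Pool.Agent.Z700 (pr fac hh od)
open Pool.Agent.Z927 (abs_main)

lemma sp_facts {p : ℕ} (hp : Sp p) :
    p.Prime ∧ p ≠ 2 ∧ p ≠ 3 ∧ p ≠ 7 ∧ p % 4 = 1 ∧ Odd p := by
  obtain ⟨h1, h2, h3⟩ := hp
  refine ⟨h1, ?_, ?_, ?_, ?_, Nat.odd_iff.2 ?_⟩ <;> omega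

lemma sp_neg_one {p : ℕ} (hp : Sp p) : jacobiSym (-1) p = 1 := by
  obtain ⟨h1, h2, h3, h4, h5, h7⟩ := sp_facts hp
  rw [jacobiSym.at_neg_one h7]
  exact ZMod.χ₄_nat_one_mod_four h5

lemma sp_two {p : ℕ} (hp : Sp p) : jacobiSym 2 p = 1 := by
  obtain ⟨h1, h2, h3, h4, h5, h7⟩ := sp_facts hp
  rw [jacobiSym.at_two h7]
  have h8 : p % 8 = 1 := hp.2.1
  rw [ZMod.χ₈_nat_eq_if_mod_eight, h8]
  have : ¬ p % 2 = 0 := by omega
  simp [this]

lemma sp_seven {p : ℕ} (hp : Sp p) : jacobiSym 7 p = 1 := by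
  obtain ⟨h1, h2, h3, h4, h5, h7⟩ := sp_facts hp
  have e := jacobiSym.quadratic_reciprocity_one_mod_four h5 (b := 7) (by decide)
  have e2 : jacobiSym (p : ℤ) 7 = 1 := by
    rw [jacobiSym.mod_left]
    have : (p : ℤ) % (7 : ℕ) = 1 ∨ (p : ℤ) % (7 : ℕ) = 2 ∨ (p : ℤ) % (7 : ℕ) = 4 := by
      have := hp.2.2; push_cast; omega
    rcases this with h | h | h <;> rw [h]
    · exact jacobiSym.one_left 7
    · norm_num
    · norm_num
  rw [e2] at e
  exact_mod_cast e.symm

lemma js_prod_left {α : Type*} (s : Finset α) (f : α → ℤ) (b : ℕ) :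
    jacobiSym (∏ i ∈ s, f i) b = ∏ i ∈ s, jacobiSym (f i) b := by
  classical
  induction s using Finset.induction_on with
  | empty => simp
  | insert a t ha ih => rw [Finset.prod_insert ha, Finset.prod_insert ha, jacobiSym.mul_left, ih]

lemma js_pr (A : Finset ℕ) (l : ℕ) : jacobiSym (pr A : ℤ) l = ∏ p ∈ A, jacobiSym (p : ℤ) l := by
  rw [pr]
  push_cast
  exact js_prod_left _ _ _

lemma pr_erase {A : Finset ℕ} {p : ℕ} (hp : p ∈ A) : pr A = p * pr (A.erase p) := by
  rw [pr, pr, Finset.mul_prod_erase A (fun p => p) hp]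

lemma pr_coprime {A : Finset ℕ} (hA : ∀ p ∈ A, p.Prime) {q : ℕ} (hq : q.Prime) (h : q ∉ A) :
    Nat.Coprime (pr A) q := by
  rw [pr]
  refine Nat.Coprime.prod_left fun i hi => ?_
  rw [Nat.coprime_primes (hA i hi) hq]
  rintro rfl
  exact h hi

lemma js_unit {a b : ℕ} (h : Nat.Coprime a b) : jacobiSym (a : ℤ) b = 1 ∨ jacobiSym (a : ℤ) b = -1 :=
  jacobiSym.eq_one_or_neg_one (by simpa using h)

lemma js_unit' {a b : ℕ} (h : Nat.Coprime a b) :
    jacobiSym (-(a : ℤ)) b = 1 ∨ jacobiSym (-(a : ℤ)) b = -1 :=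
  jacobiSym.eq_one_or_neg_one (by simpa using h)

/-- the primes of `D` different from `2`, `7` -/
def SS (D : ℕ) : Finset ℕ := (D.primeFactors.erase 2).erase 7

lemma mem_SS {D l : ℕ} (hl : l ∈ SS D) : l ≠ 7 ∧ l ≠ 2 ∧ l.Prime ∧ l ∣ D := by
  rw [SS, Finset.mem_erase, Finset.mem_erase, Nat.mem_primeFactors] at hl
  exact ⟨hl.1, hl.2.1, hl.2.2.1, hl.2.2.2.1⟩

lemma mem_SS' {D l : ℕ} (h0 : D ≠ 0) (h7 : l ≠ 7) (h2 : l ≠ 2) (hp : l.Prime)
    (hD : l ∣ D) : l ∈ SS D := by
  rw [SS, Finset.mem_erase, Finset.mem_erase, Nat.mem_primeFactors]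
  exact ⟨h7, h2, hp, hD, h0⟩

/-- the characters -/
def ee (q : ℕ) (P : Finset ℕ) (l p : ℕ) : ℤ :=
  if l = p then jacobiSym ((3 * q * pr (P.erase p) : ℕ) : ℤ) p else jacobiSym (p : ℤ) l

/-- the signs -/
def ss (q m l : ℕ) : ℤ := if l = q then jacobiSym (-((3 * m : ℕ) : ℤ)) q else jacobiSym (-(q : ℤ)) l

lemma erase_mul {M : Type*} [CommMonoid M] (s : Finset ℕ) (f : ℕ → M) (q : ℕ)
    (h : q ∉ s → f q = 1) : f q * ∏ l ∈ s.erase q, f l = ∏ l ∈ s, f l := by
  by_cases hq : q ∈ s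
  · exact Finset.mul_prod_erase s f hq
  · rw [h hq, one_mul, Finset.erase_eq_of_notMem hq]

/-- the decomposition of `D` -/
lemma D_decomp {D : ℕ} (hD : 0 < D) :
    D = 2 ^ D.factorization 2 * (7 ^ D.factorization 7 *
      ∏ l ∈ SS D, l ^ D.factorization l) := by
  have h0 : ∏ l ∈ D.primeFactors, l ^ D.factorization l = D :=
    Nat.prod_factorization_pow_eq_self hD.ne'
  have hz : ∀ q, q.Prime → q ∉ D.primeFactors → D.factorization q = 0 := by
    intro q hq h
    rw [Nat.mem_primeFactors] at h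
    apply Nat.factorization_eq_zero_of_not_dvd
    intro hd
    exact h ⟨hq, hd, hD.ne'⟩
  rw [SS, erase_mul _ (fun l => l ^ D.factorization l) 7, erase_mul _
    (fun l => l ^ D.factorization l) 2, h0]
  · intro h; rw [hz 2 Nat.prime_two h, pow_zero]
  · intro h
    rw [hz 7 (by norm_num) (fun h' => h (Finset.mem_erase.2 ⟨by norm_num, h'⟩)), pow_zero]

section

variable {q : ℕ} {P : Finset ℕ} (hq : Qr q) (hq3 : q ≠ 3) (hP : ∀ p ∈ P, Sp p)

include hq hP in
lemma q_notMem : q ∉ P := by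
  intro h
  have h1 := (hP q h).2.1
  have h2 := hq.2.1
  omega

include hq hP in
lemma sp_ne {p : ℕ} (hp : p ∈ P) : p ≠ q := by
  rintro rfl
  exact q_notMem hq hP hp

include hq hq3 in
lemma q_cop3 : Nat.Coprime 3 q :=
  (Nat.coprime_primes Nat.prime_three hq.1).2 fun e => hq3 e.symm

include hq hP in
lemma cop_erase {p : ℕ} (hp : p ∈ P) : Nat.Coprime (3 * q * pr (P.erase p)) p := by
  have hpp := (hP p hp).1
  have h3 := (sp_facts (hP p hp)).2.2.1
  refine Nat.Coprime.mul_left (Nat.Coprime.mul_left ?_ ?_) ?_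
  · exact (Nat.coprime_primes Nat.prime_three hpp).2 fun e => h3 e.symm
  · exact (Nat.coprime_primes hq.1 hpp).2 fun e => sp_ne hq hP hp e.symm
  · exact pr_coprime (fun r hr => (hP r (Finset.mem_of_mem_erase hr)).1) hpp
      (Finset.notMem_erase _ _)

include hq hP in
lemma ee_unit {D l : ℕ} (hl : l ∈ SS D) {p : ℕ} (hp : p ∈ P) :
    ee q P l p = 1 ∨ ee q P l p = -1 := by
  obtain ⟨-, -, hlp, -⟩ := mem_SS hl
  have hpp := (hP p hp).1
  rw [ee]
  split_ifs with h
  · exact js_unit (cop_erase hq hP hp)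
  · exact js_unit ((Nat.coprime_primes hpp hlp).2 (fun e => h e.symm))

include hq hq3 hP in
lemma ss_unit {D l : ℕ} (hl : l ∈ SS D) : ss q (pr P) l = 1 ∨ ss q (pr P) l = -1 := by
  obtain ⟨-, -, hlp, -⟩ := mem_SS hl
  rw [ss]
  split_ifs with h
  · exact js_unit' (Nat.Coprime.mul_left (q_cop3 hq hq3)
      (pr_coprime (fun r hr => (hP r hr).1) hq.1 (q_notMem hq hP)))
  · exact js_unit' ((Nat.coprime_primes hq.1 hlp).2 (fun e => h e.symm))

include hq hP in
/-- primes of the family dividing `D` divide it exactly once -/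
lemma sp_div {b : ℤ} {D : ℕ} (hD : 0 < D)
    (hDD : (D : ℤ) = 3 * (q : ℤ) * (pr P : ℤ) - b ^ 2) {p : ℕ} (hp : p ∈ P) (hpD : p ∣ D) :
    ∃ D' : ℕ, D = p * D' ∧ ¬ p ∣ D' ∧ D.factorization p = 1 ∧
      jacobiSym (D' : ℤ) p = jacobiSym ((3 * q * pr (P.erase p) : ℕ) : ℤ) p := by
  have hpp := (hP p hp).1
  obtain ⟨D', rfl⟩ := hpD
  have e1 : (pr P : ℤ) = p * (pr (P.erase p) : ℤ) := by
    rw [pr_erase hp]; push_cast; ring
  have hb : (p : ℤ) ∣ b := by
    have : (p : ℤ) ∣ b ^ 2 := by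
      refine ⟨3 * q * pr (P.erase p) - D', ?_⟩
      push_cast at hDD
      rw [e1] at hDD
      linarith
    exact (Nat.prime_iff_prime_int.1 hpp).dvd_of_dvd_pow this
  obtain ⟨c, rfl⟩ := hb
  have hp0 : (p : ℤ) ≠ 0 := by exact_mod_cast hpp.ne_zero
  have e2 : (D' : ℤ) = ((3 * q * pr (P.erase p) : ℕ) : ℤ) - p * c ^ 2 := by
    push_cast at hDD ⊢
    rw [e1] at hDD
    have : (p : ℤ) * D' = p * (3 * q * pr (P.erase p) - p * c ^ 2) := by linarith
    exact mul_left_cancel₀ hp0 this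
  have hn : ¬ p ∣ D' := by
    intro h
    have h1 : (p : ℤ) ∣ ((3 * q * pr (P.erase p) : ℕ) : ℤ) := by
      have : ((3 * q * pr (P.erase p) : ℕ) : ℤ) = D' + p * c ^ 2 := by rw [e2]; ring
      rw [this]
      exact dvd_add (by exact_mod_cast h) (Dvd.intro _ rfl)
    have h2 : p ∣ 3 * q * pr (P.erase p) := by exact_mod_cast h1
    have := Nat.Coprime.eq_one_of_dvd (cop_erase hq hP hp).symm h2
    exact hpp.one_lt.ne' this
  refine ⟨D', rfl, hn, ?_, ?_⟩
  · have hD' : D' ≠ 0 := by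
      rintro rfl
      simp at hD
    rw [Nat.factorization_mul hpp.ne_zero hD', Finsupp.add_apply, hpp.factorization_self,
      Nat.factorization_eq_zero_of_not_dvd hn]
  · have h5 : (D' : ℤ) % p = ((3 * q * pr (P.erase p) : ℕ) : ℤ) % p := by
      rw [e2, Int.sub_mul_emod_self_left]
    rw [jacobiSym.mod_left' h5]

include hq hq3 hP in
/-- if `q` divides `D` then exactly once -/
lemma q_div {b : ℤ} {D : ℕ} (hD : 0 < D)
    (hDD : (D : ℤ) = 3 * (q : ℤ) * (pr P : ℤ) - b ^ 2) (hqD : q ∣ D) :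
    ∃ D' : ℕ, D = q * D' ∧ ¬ q ∣ D' ∧ D.factorization q = 1 ∧
      (D' : ℤ) % q = ((3 * pr P : ℕ) : ℤ) % q := by
  have hpp := hq.1
  obtain ⟨D', rfl⟩ := hqD
  have hb : (q : ℤ) ∣ b := by
    have : (q : ℤ) ∣ b ^ 2 := by
      refine ⟨3 * pr P - D', ?_⟩
      push_cast at hDD
      linarith
    exact (Nat.prime_iff_prime_int.1 hpp).dvd_of_dvd_pow this
  obtain ⟨c, rfl⟩ := hb
  have hp0 : (q : ℤ) ≠ 0 := by exact_mod_cast hpp.ne_zero
  have e2 : (D' : ℤ) = ((3 * pr P : ℕ) : ℤ) - q * c ^ 2 := by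
    push_cast at hDD ⊢
    have : (q : ℤ) * D' = q * (3 * pr P - q * c ^ 2) := by linarith
    exact mul_left_cancel₀ hp0 this
  have hcop : Nat.Coprime (3 * pr P) q := Nat.Coprime.mul_left (q_cop3 hq hq3)
      (pr_coprime (fun r hr => (hP r hr).1) hq.1 (q_notMem hq hP))
  have hn : ¬ q ∣ D' := by
    intro h
    have h1 : (q : ℤ) ∣ ((3 * pr P : ℕ) : ℤ) := by
      have : ((3 * pr P : ℕ) : ℤ) = D' + q * c ^ 2 := by rw [e2]; ring
      rw [this]
      exact dvd_add (by exact_mod_cast h) (Dvd.intro _ rfl)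
    have h2 : q ∣ 3 * pr P := by exact_mod_cast h1
    have := Nat.Coprime.eq_one_of_dvd hcop.symm h2
    exact hpp.one_lt.ne' this
  refine ⟨D', rfl, hn, ?_, ?_⟩
  · have hD' : D' ≠ 0 := by
      rintro rfl
      simp at hD
    rw [Nat.factorization_mul hpp.ne_zero hD', Finsupp.add_apply, hpp.factorization_self,
      Nat.factorization_eq_zero_of_not_dvd hn]
  · rw [e2, Int.sub_mul_emod_self_left]

include hq hq3 hP in
/-- the local factor as a geometric sum -/
lemma fac_eq {b : ℤ} {D : ℕ} (hD : 0 < D)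
    (hDD : (D : ℤ) = 3 * (q : ℤ) * (pr P : ℤ) - b ^ 2) {l : ℕ} (hl : l ∈ SS D) {D1 : Finset ℕ}
    (h1 : D1 ⊆ P) :
    fac (q * pr D1) D l = ∑ j ∈ range (D.factorization l + 1),
      (ss q (pr P) l * ∏ p ∈ D1, ee q P l p) ^ j := by
  obtain ⟨h7, h2, hlp, hlD⟩ := mem_SS hl
  by_cases hlq : l = q
  · subst hlq
    obtain ⟨D', hD1, hD2, hD3, hD4⟩ := q_div hq hq3 hP hD hDD hlD
    have hdiv : l ∣ l * pr D1 := Dvd.intro _ rfl
    rw [fac, if_pos hdiv, hD3, hh, hD3, if_neg (by decide)]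
    have e2 : l * pr D1 / l = pr D1 := Nat.mul_div_cancel_left _ hlp.pos
    have e3 : D / l ^ 1 = D' := by rw [pow_one, hD1, Nat.mul_div_cancel_left _ hlp.pos]
    rw [e2, e3, Finset.sum_range_succ, Finset.sum_range_one, pow_zero, pow_one]
    congr 1
    have e4 : (-((pr D1 * D' : ℕ) : ℤ)) = (-1) * (D' : ℤ) * (pr D1 : ℤ) := by
      push_cast; ring
    have e5 : (-((3 * pr P : ℕ) : ℤ)) = (-1) * ((3 * pr P : ℕ) : ℤ) := by ring
    rw [e4, jacobiSym.mul_left, jacobiSym.mul_left, jacobiSym.mod_left' hD4, js_pr D1, ss,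
      if_pos rfl, e5, jacobiSym.mul_left]
    congr 1
    refine Finset.prod_congr rfl fun p hp => ?_
    rw [ee, if_neg fun e => sp_ne hq hP (h1 hp) e.symm]
  by_cases hd : l ∈ D1
  · obtain ⟨D', hD1, hD2, hD3, hD4⟩ := sp_div hq hP hD hDD (h1 hd) hlD
    have e1 : q * pr D1 = l * (q * pr (D1.erase l)) := by rw [pr_erase hd]; ring
    have hdiv : l ∣ q * pr D1 := by rw [e1]; exact Dvd.intro _ rfl
    rw [fac, if_pos hdiv, hD3, hh, hD3, if_neg (by decide)]
    have e2 : q * pr D1 / l = q * pr (D1.erase l) := by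
      rw [e1, Nat.mul_div_cancel_left _ hlp.pos]
    have e3 : D / l ^ 1 = D' := by rw [pow_one, hD1, Nat.mul_div_cancel_left _ hlp.pos]
    rw [e2, e3, Finset.sum_range_succ, Finset.sum_range_one, pow_zero, pow_one]
    congr 1
    have e4 : (-((q * pr (D1.erase l) * D' : ℕ) : ℤ)) =
        (-(q : ℤ)) * (pr (D1.erase l) : ℤ) * (D' : ℤ) := by
      push_cast; ring
    rw [e4, jacobiSym.mul_left, jacobiSym.mul_left, hD4, js_pr (D1.erase l), ss, if_neg hlq,
      ← Finset.mul_prod_erase D1 (fun p => ee q P l p) hd]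
    have e5 : ee q P l l = jacobiSym ((3 * q * pr (P.erase l) : ℕ) : ℤ) l := by rw [ee, if_pos rfl]
    have e6 : ∏ p ∈ D1.erase l, ee q P l p = ∏ p ∈ D1.erase l, jacobiSym (p : ℤ) l := by
      refine Finset.prod_congr rfl fun p hp => ?_
      rw [ee, if_neg]
      rintro rfl
      exact (Finset.mem_erase.1 hp).1 rfl
    rw [e5, e6]
    ring
  · have hdiv : ¬ l ∣ q * pr D1 := by
      intro h
      have c1 : Nat.Coprime (pr D1) l := pr_coprime (fun r hr => (hP r (h1 hr)).1) hlp hd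
      have c2 : Nat.Coprime q l := (Nat.coprime_primes hq.1 hlp).2 (fun e => hlq e.symm)
      exact hlp.one_lt.ne' (Nat.Coprime.eq_one_of_dvd (Nat.Coprime.mul_left c2 c1).symm h)
    rw [fac, if_neg hdiv]
    refine Finset.sum_congr rfl fun j _ => ?_
    congr 1
    have e4 : (-((q * pr D1 : ℕ) : ℤ)) = (-(q : ℤ)) * (pr D1 : ℤ) := by push_cast; ring
    rw [e4, jacobiSym.mul_left, js_pr, ss, if_neg hlq]
    congr 1
    refine Finset.prod_congr rfl fun p hp => ?_
    rw [ee, if_neg]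
    rintro rfl
    exact hd hp

lemma js_swap {p l : ℕ} (hp : Sp p) (hl : Odd l) : jacobiSym (p : ℤ) l = jacobiSym (l : ℤ) p :=
  jacobiSym.quadratic_reciprocity_one_mod_four (sp_facts hp).2.2.2.2.1 hl

include hq hP in
/-- the total character is trivial -/
lemma ee_total {b : ℤ} {D : ℕ} (hD : 0 < D)
    (hDD : (D : ℤ) = 3 * (q : ℤ) * (pr P : ℤ) - b ^ 2) {p : ℕ} (hp : p ∈ P) :
    ∏ l ∈ SS D, (ee q P l p) ^ (D.factorization l) = 1 := by
  have hF := hP p hp
  have hpp := hF.1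
  have hodd : ∀ l ∈ SS D, Odd l := by
    intro l hl
    obtain ⟨-, h2, hlp, -⟩ := mem_SS hl
    exact hlp.odd_of_ne_two h2
  have hsw : ∀ s : Finset ℕ, s ⊆ SS D → p ∉ s → ∏ l ∈ s, (ee q P l p) ^ (D.factorization l) =
      jacobiSym ((∏ l ∈ s, l ^ D.factorization l : ℕ) : ℤ) p := by
    intro s hs hps
    push_cast
    rw [js_prod_left]
    refine Finset.prod_congr rfl fun l hl => ?_
    rw [jacobiSym.pow_left, ee, if_neg, js_swap hF (hodd l (hs hl))]
    rintro rfl
    exact hps hl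
  have hdec := D_decomp hD
  by_cases hpD : p ∣ D
  · obtain ⟨D', hD1, hD2, hD3, hD4⟩ := sp_div hq hP hD hDD hp hpD
    have hpS : p ∈ SS D := mem_SS' hD.ne' (sp_facts hF).2.2.2.1
      (sp_facts hF).2.1 hpp hpD
    rw [← Finset.mul_prod_erase (SS D) (fun l => (ee q P l p) ^ (D.factorization l)) hpS,
      hsw _ (Finset.erase_subset _ _) (Finset.notMem_erase _ _), hD3, pow_one]
    have e0 : ee q P p p = jacobiSym ((3 * q * pr (P.erase p) : ℕ) : ℤ) p := by rw [ee, if_pos rfl]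
    have e1 : D' = 2 ^ D.factorization 2 * (7 ^ D.factorization 7 *
        ∏ l ∈ (SS D).erase p, l ^ D.factorization l) := by
      have h5 : ∏ l ∈ SS D, l ^ D.factorization l =
          p * ∏ l ∈ (SS D).erase p, l ^ D.factorization l := by
        rw [← Finset.mul_prod_erase (SS D) (fun l => l ^ (D.factorization l)) hpS, hD3, pow_one]
      rw [h5] at hdec
      apply Nat.eq_of_mul_eq_mul_left hpp.pos
      rw [← hD1]
      conv_lhs => rw [hdec]
      ring
    have e2 : jacobiSym (D' : ℤ) p =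
        jacobiSym ((∏ l ∈ (SS D).erase p, l ^ D.factorization l : ℕ) : ℤ) p := by
      have : (D' : ℤ) = 2 ^ D.factorization 2 * (7 ^ D.factorization 7 *
        ((∏ l ∈ (SS D).erase p, l ^ D.factorization l : ℕ) : ℤ)) := by
        conv_lhs => rw [e1]
        push_cast
        ring
      rw [this, jacobiSym.mul_left, jacobiSym.mul_left, jacobiSym.pow_left,
        jacobiSym.pow_left, sp_two hF, sp_seven hF]
      simp only [one_pow, one_mul]
    rw [e0, ← e2, hD4]
    rcases js_unit (cop_erase hq hP hp) with h | h <;> rw [h] <;> norm_num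
  · have hpS : p ∉ SS D := fun h => hpD (mem_SS h).2.2.2
    rw [hsw _ (Finset.Subset.refl _) hpS]
    have e2 : jacobiSym (D : ℤ) p =
        jacobiSym ((∏ l ∈ SS D, l ^ D.factorization l : ℕ) : ℤ) p := by
      have : (D : ℤ) = 2 ^ D.factorization 2 * (7 ^ D.factorization 7 *
        ((∏ l ∈ SS D, l ^ D.factorization l : ℕ) : ℤ)) := by
        conv_lhs => rw [hdec]
        push_cast
        ring
      rw [this, jacobiSym.mul_left, jacobiSym.mul_left, jacobiSym.pow_left,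
        jacobiSym.pow_left, sp_two hF, sp_seven hF]
      simp only [one_pow, one_mul]
    rw [← e2]
    have e1 : (pr P : ℤ) = p * (pr (P.erase p) : ℤ) := by
      rw [pr_erase hp]; push_cast; ring
    have hpb : ¬ (p : ℤ) ∣ b := by
      rintro ⟨c, rfl⟩
      apply hpD
      have : (p : ℤ) ∣ D := by
        rw [hDD, e1]
        exact ⟨3 * q * pr (P.erase p) - p * c ^ 2, by ring⟩
      exact_mod_cast this
    have e3 : (D : ℤ) % p = (-1 * b ^ 2) % p := by
      rw [hDD, e1]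
      have : 3 * (q : ℤ) * ((p : ℤ) * (pr (P.erase p) : ℤ)) - b ^ 2 =
        -1 * b ^ 2 + p * (3 * q * (pr (P.erase p) : ℤ)) := by ring
      rw [this, Int.add_mul_emod_self_left]
    rw [jacobiSym.mod_left' e3, jacobiSym.mul_left, sp_neg_one hF, one_mul]
    apply jacobiSym.sq_one'
    rw [Int.gcd_comm]
    have := (Int.isCoprime_iff_gcd_eq_one).1
      ((Prime.coprime_iff_not_dvd (Nat.prime_iff_prime_int.1 hpp)).2 hpb)
    exact this

include hq hP in
/-- the condition in terms of `od D` -/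
lemma cond_iff {b : ℤ} {D : ℕ} (hD : 0 < D)
    (hDD : (D : ℤ) = 3 * (q : ℤ) * (pr P : ℤ) - b ^ 2) :
    ((∀ l ∈ SS D, Even (D.factorization l)) ∧
      ∀ p ∈ P, ∏ l ∈ SS D, (ee q P l p) ^ (D.factorization l / 2) = 1) ↔
    ∃ y : ℕ, od D = y ^ 2 ∧ ∀ p ∈ P, jacobiSym y p = 1 := by
  have hodd : ∀ l ∈ SS D, Odd l := by
    intro l hl
    obtain ⟨-, h2, hlp, -⟩ := mem_SS hl
    exact hlp.odd_of_ne_two h2
  have hod : od D = ∏ l ∈ SS D, l ^ D.factorization l := by
    have hdec := D_decomp hD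
    rw [← mul_assoc] at hdec
    rw [od]
    apply Nat.div_eq_of_eq_mul_right
    · positivity
    · exact hdec
  have key : (∀ l ∈ SS D, Even (D.factorization l)) → ∀ p ∈ P,
      ∏ l ∈ SS D, (ee q P l p) ^ (D.factorization l / 2) =
      jacobiSym ((∏ l ∈ SS D, l ^ (D.factorization l / 2) : ℕ) : ℤ) p := by
    intro hev p hp
    push_cast
    rw [js_prod_left]
    refine Finset.prod_congr rfl fun l hl => ?_
    rw [jacobiSym.pow_left, ee, if_neg, js_swap (hP p hp) (hodd l hl)]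
    rintro rfl
    obtain ⟨D', hD1, hD2, hD3, hD4⟩ := sp_div hq hP hD hDD hp (mem_SS hl).2.2.2
    have := hev l hl
    rw [hD3] at this
    exact absurd this (by decide)
  constructor
  · rintro ⟨hev, h⟩
    refine ⟨∏ l ∈ SS D, l ^ (D.factorization l / 2), ?_, fun p hp => ?_⟩
    · rw [hod, ← Finset.prod_pow]
      refine Finset.prod_congr rfl fun l hl => ?_
      rw [← pow_mul, Nat.div_mul_cancel (even_iff_two_dvd.1 (hev l hl))]
    · rw [← key hev p hp]
      exact h p hp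
  · rintro ⟨y, hy, hyp⟩
    have hdec : D = 2 ^ D.factorization 2 * (7 ^ D.factorization 7 * y ^ 2) := by
      have hdec := D_decomp hD
      rwa [← hod, hy] at hdec
    have hy0 : y ≠ 0 := by
      rintro rfl
      rw [hdec] at hD
      simp at hD
    have hfac : ∀ l ∈ SS D, D.factorization l = 2 * y.factorization l := by
      intro l hl
      obtain ⟨h7, h2, hlp, -⟩ := mem_SS hl
      conv_lhs => rw [hdec]
      rw [Nat.factorization_mul (by positivity) (by positivity),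
        Nat.factorization_mul (by positivity) (by positivity), Nat.factorization_pow,
        Nat.factorization_pow, Nat.factorization_pow]
      simp only [Finsupp.add_apply, Finsupp.smul_apply, smul_eq_mul]
      rw [Nat.Prime.factorization Nat.prime_two, Nat.Prime.factorization (by norm_num : Nat.Prime 7),
        Finsupp.single_eq_of_ne h2, Finsupp.single_eq_of_ne h7]
      ring
    have hev : ∀ l ∈ SS D, Even (D.factorization l) := fun l hl => by
      rw [hfac l hl]; exact even_two_mul _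
    refine ⟨hev, fun p hp => ?_⟩
    rw [key hev p hp]
    have : ∏ l ∈ SS D, l ^ (D.factorization l / 2) = y := by
      have e : (∏ l ∈ SS D, l ^ (D.factorization l / 2)) ^ 2 = y ^ 2 := by
        rw [← hy, hod, ← Finset.prod_pow]
        refine Finset.prod_congr rfl fun l hl => ?_
        rw [← pow_mul, Nat.div_mul_cancel (even_iff_two_dvd.1 (hev l hl))]
      exact Nat.pow_left_injective (n := 2) (by norm_num) e
    rw [this]
    exact hyp p hp

end

/-- GENbQ -/
theorem t_GENbQ : S_GENbQ := by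
  intro q P hq hq3 hP b _ D hD hDD _
  obtain ⟨n, hn, hn2⟩ := abs_main (ι := SS D) (fun i => D.factorization i)
    (fun i => ss q (pr P) i) (fun i p => ee q P i p) P (fun i => ss_unit hq hq3 hP i.2)
    (fun i p hp => ee_unit hq hP i.2 hp) (fun p hp => by
      rw [Finset.prod_coe_sort (SS D) (fun l => (ee q P l p) ^ (D.factorization l))]
      exact ee_total hq hP hD hDD hp)
  have h3prod : ∀ D1 ∈ P.powerset, ∏ l ∈ (D.primeFactors.erase 2).erase 7, fac (q * pr D1) D l =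
      ∏ i : SS D, ∑ j ∈ range (D.factorization i + 1),
        (ss q (pr P) i * ∏ p ∈ D1, ee q P i p) ^ j := by
    intro D1 hD1
    change ∏ l ∈ SS D, fac (q * pr D1) D l = _
    rw [← Finset.prod_coe_sort]
    refine Finset.prod_congr rfl fun i _ => ?_
    exact fac_eq hq hq3 hP hD hDD i.2 (Finset.mem_powerset.1 hD1)
  refine ⟨n, ?_, fun _ => ?_⟩
  · rw [Finset.sum_congr rfl h3prod, hn]
  · rw [hn2, ← cond_iff hq hP hD hDD]
    constructor
    · rintro ⟨h1, h2⟩
      refine ⟨fun l hl => h1 ⟨l, hl⟩, fun p hp => ?_⟩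
      rw [← h2 p hp, ← Finset.prod_coe_sort]
    · rintro ⟨h1, h2⟩
      refine ⟨fun i => h1 i.1 i.2, fun p hp => ?_⟩
      exact (Finset.prod_coe_sort (SS D) (fun l => ee q P l p ^ (D.factorization l / 2))).trans
        (h2 p hp)

end Pool.Agent.Z125.N
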