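import Pool.Agent.Z125.N.GENb
import Pool.Agent.Z419.Gen

/-!
# The sum over all factorizations, general `q`
-/

set_option autoImplicit false

namespace Pool.Agent.Z125.N

open Finset Matrix Pool.Agent.Y17.N
open Pool.Agent.Z700 (pr fac od loc sq7)
open Pool.Agent.Z419.Gen (odd_sum fac2 fac7 od_eq split14 not_dvd_sq)

lemma jac_eq {p : ℕ} (hp : Sp p) (i j y : ℕ) :
    jacobiSym ((2 ^ i * 7 ^ j * y : ℕ) : ℤ) p = jacobiSym y p := by
  push_cast
  rw [jacobiSym.mul_left, jacobiSym.mul_left, jacobiSym.pow_left, jacobiSym.pow_left, sp_two hp,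
    sp_seven hp]
  simp

/-- squares up to fourteen -/
lemma sq14 {P : Finset ℕ} (hP : ∀ p ∈ P, Sp p) {D : ℕ} (hD : 0 < D) :
    (∃ y : ℕ, D = 14 * y ^ 2 ∧ ∀ p ∈ P, jacobiSym y p = 1) ↔
      (Odd (D.factorization 2) ∧ Odd (D.factorization 7) ∧
        ∃ y : ℕ, od D = y ^ 2 ∧ ∀ p ∈ P, jacobiSym y p = 1) := by
  constructor
  · rintro ⟨y, hy, hj⟩
    have hy0 : y ≠ 0 := by rintro rfl; simp at hy; omega
    obtain ⟨i, j, z, h2, h7, rfl⟩ := split14 hy0
    have e : D = 2 ^ (2 * i + 1) * 7 ^ (2 * j + 1) * z ^ 2 := by rw [hy]; ring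
    rw [e, fac2 (not_dvd_sq Nat.prime_two h2), fac7 (not_dvd_sq (by norm_num) h7),
      od_eq (not_dvd_sq Nat.prime_two h2) (not_dvd_sq (by norm_num) h7)]
    refine ⟨⟨i, rfl⟩, ⟨j, rfl⟩, z, rfl, fun p hp => ?_⟩
    rw [← jac_eq (hP p hp) i j z]
    exact hj p hp
  · rintro ⟨⟨i, hi⟩, ⟨j, hj⟩, y, hy, hjac⟩
    obtain ⟨a, c, z, h2, h7, hDe⟩ := split14 hD.ne'
    rw [hDe, fac2 h2] at hi
    rw [hDe, fac7 h7] at hj
    rw [hDe, od_eq h2 h7] at hy
    refine ⟨2 ^ i * 7 ^ j * y, ?_, fun p hp => ?_⟩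
    · rw [hDe, hi, hj, hy]
      ring
    · rw [jac_eq (hP p hp)]
      exact hjac p hp

lemma pr_mod8 {D : Finset ℕ} (hD : ∀ p ∈ D, Sp p) : pr D % 8 = 1 := by
  unfold pr
  induction D using Finset.induction_on with
  | empty => rfl
  | insert a s ha ih =>
    rw [Finset.prod_insert ha, Nat.mul_mod, (hD a (Finset.mem_insert_self _ _)).2.1,
      ih fun p hp => hD p (Finset.mem_insert_of_mem hp)]

lemma mem_FixQ {q : ℕ} {P : Finset ℕ} {b : ℤ} : b ∈ FixQ q P ↔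
    b ∈ Ioo (-(3 * (q : ℤ) * (pr P : ℤ))) (3 * (q : ℤ) * (pr P : ℤ)) ∧
    ((b : ZMod 7) = -(2 * bq q P) ∧
    ∃ y ∈ range (3 * q * pr P), 3 * (q : ℤ) * (pr P : ℤ) = b ^ 2 + 14 * (y : ℤ) ^ 2 ∧
      ∀ p ∈ P, jacobiSym y p = 1) := by
  unfold FixQ
  simp only [Finset.mem_filter]

/-- the discriminant -/
def Db (q : ℕ) (P : Finset ℕ) (b : ℤ) : ℕ := (3 * (q : ℤ) * (pr P : ℤ) - b ^ 2).toNat

/-- the inner products -/
noncomputable def II (q : ℕ) (P : Finset ℕ) (ε : ℤ) : Finset ℤ :=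
  (Ioo (-(3 * (q : ℤ) * (pr P : ℤ))) (3 * (q : ℤ) * (pr P : ℤ))).filter fun b : ℤ =>
    (4 : ℤ) ∣ b - ε ∧ (b : ZMod 7) = -(2 * bq q P) ∧ b ^ 2 < 3 * (q : ℤ) * (pr P : ℤ)

lemma SB_eq (q : ℕ) (P : Finset ℕ) {D1 : Finset ℕ} (h : D1 ∈ P.powerset) (ε : ℤ) :
    SB (q * pr D1) (3 * pr (P \ D1)) (-(2 * bq q P)) ε =
      ∑ b ∈ II q P ε, loc (q * pr D1) (Db q P b) := by
  rw [Finset.mem_powerset] at h
  have e1 : pr D1 * pr (P \ D1) = pr P := by
    unfold pr
    rw [mul_comm]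
    exact Finset.prod_sdiff h
  have e3 : (((q * pr D1 : ℕ) : ℤ) * ((3 * pr (P \ D1) : ℕ) : ℤ)) = 3 * (q : ℤ) * (pr P : ℤ) := by
    rw [← e1]
    push_cast
    ring
  unfold SB II Db
  rw [e3]

/-- the contribution of one inner product -/
lemma one_b (h : S_GENbQ) {q : ℕ} {P : Finset ℕ} (hq : Qr q) (hq3 : q ≠ 3) (hP : ∀ p ∈ P, Sp p)
    {ε : ℤ} (hε : ε = 1 ∨ ε = -1) {b : ℤ} (hb : b ∈ II q P ε) :
    ∃ n : ℤ, ∑ D1 ∈ P.powerset, loc (q * pr D1) (Db q P b) = 2 ^ P.card * n ∧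
      (Odd n ↔ b ∈ FixQ q P) := by
  obtain ⟨hb0, hb4, hb7, hbD⟩ := Finset.mem_filter.1 hb
  have hodd : Odd b := by
    rw [Int.odd_iff]
    rcases hε with rfl | rfl <;> omega
  have hDz : ((Db q P b : ℕ) : ℤ) = 3 * (q : ℤ) * (pr P : ℤ) - b ^ 2 := by
    rw [Db, Int.toNat_of_nonneg (by linarith)]
  have hDpos : 0 < Db q P b := by
    have : (0 : ℤ) < (Db q P b : ℕ) := by
      rw [hDz]
      linarith
    exact_mod_cast this
  have hfix : b ∈ FixQ q P ↔ ∃ y : ℕ, Db q P b = 14 * y ^ 2 ∧ ∀ p ∈ P, jacobiSym y p = 1 := by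
    rw [mem_FixQ]
    constructor
    · rintro ⟨_, _, y, _, hy, hj⟩
      refine ⟨y, ?_, hj⟩
      have : ((Db q P b : ℕ) : ℤ) = ((14 * y ^ 2 : ℕ) : ℤ) := by
        rw [hDz, hy]
        push_cast
        ring
      exact_mod_cast this
    · rintro ⟨y, hy, hj⟩
      have h1 : ((14 * y ^ 2 : ℕ) : ℤ) = 3 * (q : ℤ) * (pr P : ℤ) - b ^ 2 := by rw [← hy, hDz]
      refine ⟨hb0, hb7, y, ?_, ?_, hj⟩
      · rw [Finset.mem_range]
        have h2 : 14 * y ^ 2 ≤ 3 * q * pr P := by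
          have : ((14 * y ^ 2 : ℕ) : ℤ) ≤ ((3 * q * pr P : ℕ) : ℤ) := by
            rw [h1]
            push_cast
            nlinarith
          exact_mod_cast this
        have h4 : 0 < 3 * q * pr P := by
          have : (0 : ℤ) < 3 * (q : ℤ) * (pr P : ℤ) := lt_of_le_of_lt (sq_nonneg b) hbD
          exact_mod_cast this
        nlinarith
      · push_cast at h1
        linarith
  rw [hfix, sq14 hP hDpos]
  by_cases h2 : Odd ((Db q P b).factorization 2)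
  · obtain ⟨n, hn, hn2⟩ := h q P hq hq3 hP b hodd (Db q P b) hDpos hDz h2
    refine ⟨((Db q P b).factorization 7 : ℤ) * n, ?_, ?_⟩
    · have e1 : ∀ D1 ∈ P.powerset, loc (q * pr D1) (Db q P b) =
            ((Db q P b).factorization 7 : ℤ) *
              ∏ l ∈ ((Db q P b).primeFactors.erase 2).erase 7, fac (q * pr D1) (Db q P b) l := by
          intro D1 _
          unfold loc
          rw [if_pos h2]
      rw [Finset.sum_congr rfl e1, ← Finset.mul_sum, hn]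
      ring
    · have e2 : Odd (((Db q P b).factorization 7 : ℕ) : ℤ) ↔ Odd ((Db q P b).factorization 7) :=
        Int.odd_coe_nat _
      rw [Int.odd_mul, e2]
      constructor
      · rintro ⟨h7, hn3⟩
        exact ⟨h2, h7, (hn2 h7).mp hn3⟩
      · rintro ⟨_, h7, h8⟩
        exact ⟨h7, (hn2 h7).mpr h8⟩
  · refine ⟨0, ?_, ?_⟩
    · have e1 : ∀ D1 ∈ P.powerset, loc (q * pr D1) (Db q P b) = 0 := by
        intro D1 _
        unfold loc
        rw [if_neg h2]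
      rw [Finset.sum_congr rfl e1]
      simp
    · constructor
      · intro h0
        simp at h0
      · rintro ⟨h3, _⟩
        exact absurd h3 h2

lemma sum_II (h : S_GENbQ) {q : ℕ} {P : Finset ℕ} (hq : Qr q) (hq3 : q ≠ 3) (hP : ∀ p ∈ P, Sp p)
    {ε : ℤ} (hε : ε = 1 ∨ ε = -1) :
    ∃ N : ℤ, ∑ D1 ∈ P.powerset, SB (q * pr D1) (3 * pr (P \ D1)) (-(2 * bq q P)) ε =
      2 ^ P.card * N ∧ (Odd N ↔ Odd ((FixQ q P).filter fun b => (4 : ℤ) ∣ b - ε).card) := by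
  classical
  rw [Finset.sum_congr rfl fun D1 hD1 => SB_eq q P hD1 ε, Finset.sum_comm]
  have key : ∀ b ∈ II q P ε, ∃ n : ℤ, ∑ D1 ∈ P.powerset, loc (q * pr D1) (Db q P b) =
      2 ^ P.card * n ∧ (Odd n ↔ b ∈ FixQ q P) := fun b hb => one_b h hq hq3 hP hε hb
  choose! nb hnb1 hnb2 using key
  refine ⟨∑ b ∈ II q P ε, nb b, ?_, ?_⟩
  · rw [Finset.sum_congr rfl hnb1, Finset.mul_sum]
  · rw [odd_sum (II q P ε) nb (fun b => b ∈ FixQ q P) hnb2]
    have e1 : (II q P ε).filter (fun b => b ∈ FixQ q P) =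
        (FixQ q P).filter fun b => (4 : ℤ) ∣ b - ε := by
      ext b
      rw [Finset.mem_filter, Finset.mem_filter]
      constructor
      · rintro ⟨h1, h2⟩
        exact ⟨h2, (Finset.mem_filter.1 h1).2.1⟩
      · rintro ⟨hb, h4⟩
        refine ⟨?_, hb⟩
        obtain ⟨hb0, hb7, y, _, hy, _⟩ := mem_FixQ.1 hb
        refine Finset.mem_filter.2 ⟨hb0, h4, hb7, ?_⟩
        have hy0 : (y : ℤ) ≠ 0 := by
          intro h0
          rw [h0] at hy
          -- `b² = 3 q m` contradicts `3 q m` exactly divisible by `q`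
          have hqq := hq.1
          have hqb : (q : ℤ) ∣ b ^ 2 := ⟨3 * (pr P : ℤ), by linarith⟩
          obtain ⟨c, rfl⟩ := (Nat.prime_iff_prime_int.1 hqq).dvd_of_dvd_pow hqb
          have hq0 : (q : ℤ) ≠ 0 := by exact_mod_cast hqq.ne_zero
          have h5 : (3 * (pr P : ℤ)) = q * c ^ 2 := by
            have : (q : ℤ) * (3 * (pr P : ℤ)) = q * (q * c ^ 2) := by linarith
            exact mul_left_cancel₀ hq0 this
          have h6 : q ∣ 3 * pr P := by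
            have : (q : ℤ) ∣ ((3 * pr P : ℕ) : ℤ) := ⟨c ^ 2, by push_cast; exact h5⟩
            exact_mod_cast this
          have h7 : Nat.Coprime (3 * pr P) q := Nat.Coprime.mul_left (q_cop3 hq hq3)
            (pr_coprime (fun r hr => (hP r hr).1) hq.1 (q_notMem hq hP))
          exact hqq.one_lt.ne' (Nat.Coprime.eq_one_of_dvd h7.symm h6)
        have : 0 < 14 * (y : ℤ) ^ 2 := by positivity
        linarith
    rw [e1]

/-- GENQ -/
theorem t_GENQ (h : S_GENbQ) : S_GENQ := by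
  classical
  intro q P hq hq3 hP
  obtain ⟨N1, h1, h1'⟩ := sum_II h hq hq3 hP (ε := -1) (Or.inr rfl)
  obtain ⟨N2, h2, h2'⟩ := sum_II h hq hq3 hP (ε := 1) (Or.inl rfl)
  refine ⟨N1 - N2, ?_, ?_⟩
  · rw [Finset.sum_sub_distrib, h1, h2]
    ring
  · have hodd : ∀ b ∈ FixQ q P, b % 2 = 1 := by
      intro b hb
      obtain ⟨_, _, y, _, hy, _⟩ := mem_FixQ.1 hb
      have hm := pr_mod8 hP
      have hq8 := hq.2.1
      have h3 : ((3 * q * pr P : ℕ) : ℤ) = b ^ 2 + 14 * (y : ℤ) ^ 2 := by push_cast; exact hy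
      have h4 : (3 * q * pr P) % 2 = 1 := by
        rw [Nat.mul_mod, Nat.mul_mod 3 q]
        have : q % 2 = 1 := by omega
        have : pr P % 2 = 1 := by omega
        simp [*]
      have h5 : (b ^ 2) % 2 = 1 := by omega
      rcases Int.emod_two_eq_zero_or_one b with h6 | h6
      · exfalso
        have : b ^ 2 % 2 = 0 := by rw [pow_two, Int.mul_emod, h6]; rfl
        omega
      · exact h6
    have hsplit : (FixQ q P).card = ((FixQ q P).filter fun b => (4 : ℤ) ∣ b - (-1)).card +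
        ((FixQ q P).filter fun b => (4 : ℤ) ∣ b - 1).card := by
      rw [← Finset.card_filter_add_card_filter_not (s := FixQ q P) (fun b => (4 : ℤ) ∣ b - (-1))]
      congr 2
      apply Finset.filter_congr
      intro b hb
      have := hodd b hb
      omega
    rw [hsplit, Nat.odd_add, Int.odd_sub, h1', ← Int.not_odd_iff_even, ← Nat.not_odd_iff_even, h2']

end Pool.Agent.Z125.N
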